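import Mathlib

/-!
# MP_e06cf1_nt : colliding orbits for `g(z) + λ` over the algebraic closure of `F_p`

The statement of Q1 is refuted: for every odd prime `p` and every constant `c` there are points
`a, b, β` of `\bar F_p` such that for `g = z^p + c` no parameter `λ` makes the orbits of `a` and `b`
under `g_λ` both pass through `β`.  For `c ≠ 0` the polynomial `g` is not additive.
-/

open Polynomial

namespace Pool.Agent.Results.MP_e06cf1_nt.AffineFails

/-- `g(x+y) = g(x) + g(y)`; over an infinite field this is the identity of polynomials in `x, y`. -/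
def IsAdditive {K : Type*} [Field K] (g : K[X]) : Prop :=
  ∀ x y : K, g.eval (x + y) = g.eval x + g.eval y

/-- The set `C_g(a, b; β)` of parameters `l` such that the forward orbits of `a` and of `b` under
`z ↦ g(z) + l` both pass through `β`, each after at least one step. -/
def Collide {K : Type*} [Field K] (g : K[X]) (a b β : K) : Set K :=
  {l | ∃ m n : ℕ, 1 ≤ m ∧ 1 ≤ n ∧
    (fun z => g.eval z + l)^[m] a = β ∧ (fun z => g.eval z + l)^[n] b = β}

/-- The assertion of Q1 for the field `K` (used with `K` the algebraic closure of `F_p`). -/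
def AlwaysInfinite (K : Type) [Field K] : Prop :=
  ∀ g : K[X], 2 ≤ g.natDegree → ¬ IsAdditive g → ∀ a b β : K, (Collide g a b β).Infinite

/-- Some points `a, b, β` have `C_g(a, b; β) = ∅` for all the polynomials `g = z^p + c`, `c ≠ 0`,
which have degree `p` and are not additive. -/
def EmptyFor (K : Type) [Field K] (p : ℕ) : Prop :=
  ∃ a b β : K, ∀ c : K, c ≠ 0 →
    (X ^ p + C c : K[X]).natDegree = p ∧ ¬ IsAdditive (X ^ p + C c : K[X]) ∧
      Collide (X ^ p + C c) a b β = ∅

section core

set_option linter.unusedSectionVars false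

variable {K : Type*} [Field K] (p : ℕ) [Fact p.Prime] [CharP K p]

/-- `T k` is the `k`-th iterate of `0` under `z ↦ z^p + μ`. -/
def T (μ : K) (k : ℕ) : K := (fun z : K => z ^ p + μ)^[k] 0

lemma T_zero (μ : K) : T p μ 0 = 0 := rfl

lemma T_succ (μ : K) (k : ℕ) : T p μ (k + 1) = (T p μ k) ^ p + μ := by
  unfold T
  rw [Function.iterate_succ_apply']

lemma iter_eq (μ z : K) (k : ℕ) :
    (fun z : K => z ^ p + μ)^[k] z = z ^ (p ^ k) + T p μ k := by
  induction k with
  | zero => simp [T_zero]
  | succ k ih =>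
    rw [Function.iterate_succ_apply', ih, T_succ]
    rw [add_pow_char, ← pow_mul, ← pow_succ, add_assoc]

lemma T_add (μ : K) (a b : ℕ) : T p μ (a + b) = (T p μ b) ^ (p ^ a) + T p μ a := by
  have h : T p μ (a + b) = (fun z : K => z ^ p + μ)^[a] (T p μ b) := by
    unfold T
    rw [Function.iterate_add_apply]
  rw [h, iter_eq]

lemma pow_inj_frob (k : ℕ) {x y : K} (h : x ^ (p ^ k) = y ^ (p ^ k)) : x = y := by
  have h2 := (frobenius_inj K p).iterate k
  apply h2
  rw [iterate_frobenius, iterate_frobenius]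
  exact h

lemma sub_pow_p (k : ℕ) (x y : K) : (x - y) ^ (p ^ k) = x ^ (p ^ k) - y ^ (p ^ k) := by
  exact sub_pow_char_pow x y k

lemma nat_pow (j : ℕ) : ((j : K)) ^ p = (j : K) := by
  have := map_natCast (frobenius K p) j
  rwa [frobenius_def] at this

/-- membership in `F_{p^2}` -/
def Q (x : K) : Prop := x ^ (p ^ 2) = x

lemma Q.even {x : K} (h : Q p x) (j : ℕ) : x ^ (p ^ (2 * j)) = x := by
  induction j with
  | zero => simp
  | succ j ih =>
    rw [show 2 * (j + 1) = 2 * j + 2 by ring, pow_add, pow_mul, ih]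
    exact h

lemma Q.odd {x : K} (h : Q p x) (j : ℕ) : x ^ (p ^ (2 * j + 1)) = x ^ p := by
  rw [pow_succ, pow_mul, h.even]

lemma Q.pow {x : K} (h : Q p x) (k : ℕ) : Q p (x ^ k) := by
  unfold Q at *
  rw [← pow_mul, mul_comm, pow_mul, h]

lemma Q.add {x y : K} (h : Q p x) (h' : Q p y) : Q p (x + y) := by
  unfold Q at *
  rw [add_pow_char_pow, h, h']

lemma Q.sub {x y : K} (h : Q p x) (h' : Q p y) : Q p (x - y) := by
  unfold Q at *
  rw [sub_pow_p, h, h']

lemma Q_cancel (μ : K) {a b : ℕ} (h1 : Q p (T p μ a)) (h2 : Q p (T p μ (a + b))) :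
    Q p (T p μ b) := by
  have h3 : Q p ((T p μ b) ^ (p ^ a)) := by
    have : (T p μ b) ^ (p ^ a) = T p μ (a + b) - T p μ a := by rw [T_add]; ring
    rw [this]
    exact h2.sub p h1
  unfold Q at *
  apply pow_inj_frob p a
  rw [← pow_mul, mul_comm, pow_mul]
  exact h3

lemma Q_mul (μ : K) {g : ℕ} (h : Q p (T p μ g)) (k : ℕ) : Q p (T p μ (g * k)) := by
  induction k with
  | zero =>
    have hp : p ≠ 0 := (Fact.out : p.Prime).ne_zero
    simp [T_zero, Q, hp]
  | succ k ih =>
    rw [mul_add, mul_one, T_add]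
    exact (h.pow p _).add p ih

/-- the values of `T` on the multiples of `g`, `g` even -/
lemma T_even (μ : K) {g : ℕ} (h : Q p (T p μ (2 * g))) (k : ℕ) :
    T p μ (2 * g * k) = k * T p μ (2 * g) := by
  induction k with
  | zero => simp [T_zero]
  | succ k ih =>
    rw [mul_add, mul_one, T_add, ih, mul_assoc, h.even]
    push_cast
    ring

/-- the values of `T` on the multiples of `g`, `g` odd -/
lemma T_odd (μ : K) {g : ℕ} (hg : Odd g) (h : Q p (T p μ g)) (j : ℕ) :
    T p μ (g * (2 * j)) = j * (T p μ g + (T p μ g) ^ p) ∧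
    T p μ (g * (2 * j + 1)) = j * (T p μ g + (T p μ g) ^ p) + T p μ g := by
  obtain ⟨r, hr⟩ := hg
  have key : ∀ j : ℕ, T p μ (g * (2 * j)) = j * (T p μ g + (T p μ g) ^ p) →
      T p μ (g * (2 * j + 1)) = j * (T p μ g + (T p μ g) ^ p) + T p μ g := by
    intro j hj
    rw [mul_add, mul_one, T_add, hj, show g * (2 * j) = 2 * (g * j) by ring, h.even]
    ring
  have h0 : ∀ j : ℕ, T p μ (g * (2 * j)) = j * (T p μ g + (T p μ g) ^ p) := by
    intro j
    induction j with
    | zero => simp [T_zero]
    | succ j ih =>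
      have h1 := key j ih
      rw [show g * (2 * (j + 1)) = g * (2 * j + 1) + g by ring, T_add, h1]
      have : g * (2 * j + 1) = 2 * (2 * r * j + r + j) + 1 := by rw [hr]; ring
      rw [this, h.odd]
      push_cast
      ring
  exact ⟨h0 j, key j (h0 j)⟩

/-- the main lemma -/
lemma main (hp2 : p ≠ 2) (w : K) (hw : w ^ p = -w) (hw0 : w ≠ 0) (μ : K) (m n : ℕ) (hm : 1 ≤ m)
    (h1 : (fun z : K => z ^ p + μ)^[m] 0 = 1 - w)
    (h2 : (fun z : K => z ^ p + μ)^[n] w = 1 - w) : False := by
  have hpodd : Odd p := (Fact.out : p.Prime).odd_of_ne_two hp2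
  have h20 : (2 : K) ≠ 0 := by
    intro h
    have h' : ((2 : ℕ) : K) = 0 := by exact_mod_cast h
    rw [CharP.cast_eq_zero_iff K p] at h'
    have := (Nat.prime_dvd_prime_iff_eq (Fact.out : p.Prime) Nat.prime_two).1 h'
    exact hp2 this
  have h2p : (2 : K) ^ p = 2 := by
    have := nat_pow (K := K) p 2
    exact_mod_cast this
  -- w lies in F_{p^2}
  have hwp : w ^ (p ^ 2) = w := by
    rw [pow_two, pow_mul, hw, hpodd.neg_pow, hw, neg_neg]
  have hQw : Q p w := hwp
  have hQ1 : Q p (1 : K) := by simp [Q]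
  have hTm : T p μ m = 1 - w := h1
  have hTn : T p μ n = 1 - w - w ^ (p ^ n) := by
    rw [iter_eq] at h2
    rw [← h2]; ring
  have hQm : Q p (T p μ m) := by rw [hTm]; exact hQ1.sub p hQw
  have hQn : Q p (T p μ n) := by rw [hTn]; exact (hQ1.sub p hQw).sub p (hQw.pow p _)
  -- minimal index
  classical
  have hex : ∃ k, 1 ≤ k ∧ Q p (T p μ k) := ⟨m, hm, hQm⟩
  obtain ⟨hg1, hgQ⟩ := Nat.find_spec hex
  have hmin : ∀ k, k < Nat.find hex → ¬ (1 ≤ k ∧ Q p (T p μ k)) := fun k hk => Nat.find_min hex hk
  generalize Nat.find hex = g at hg1 hgQ hmin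
  have hdvd : ∀ k, Q p (T p μ k) → ∃ q, k = g * q := by
    intro k hk
    refine ⟨k / g, ?_⟩
    have hdm := Nat.div_add_mod k g
    have hlt : k % g < g := Nat.mod_lt _ hg1
    have h3 : Q p (T p μ (k % g)) := by
      apply Q_cancel p μ (a := g * (k / g)) (Q_mul p μ hgQ _)
      rw [hdm]; exact hk
    have h4 : ¬ (1 ≤ k % g) := fun h => hmin _ hlt ⟨h, h3⟩
    omega
  obtain ⟨k1, hk1⟩ := hdvd m hQm
  obtain ⟨k2, hk2⟩ := hdvd n hQn
  -- the Frobenius conjugate of 1 - w
  have hconj : (1 - w) ^ p = 1 + w := by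
    have := sub_pow_p p 1 1 w
    rw [pow_one] at this
    rw [this, one_pow, hw]; ring
  have hne : (1 - w) ^ p ≠ 1 - w := by
    rw [hconj]
    intro h
    have : 2 * w = 0 := by linear_combination h
    rcases mul_eq_zero.1 this with h | h
    · exact h20 h
    · exact hw0 h
  rcases Nat.even_or_odd g with hge | hgo
  · -- g even
    obtain ⟨g', hg'⟩ := hge
    have hg2 : g = 2 * g' := by omega
    rw [hg2] at hgQ hk1 hk2
    have e1 := T_even p μ hgQ k1
    have e2 := T_even p μ hgQ k2
    rw [← hk1, hTm] at e1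
    rw [← hk2, hTn, hk2, mul_assoc, hQw.even] at e2
    set τ := T p μ (2 * g') with hτ
    -- k2 (1 - w) = k1 (1 - 2 w)
    have r1 : (k2 : K) * (1 - w) = k1 * (1 - w - w) := by
      linear_combination (k2 : K) * e1 - (k1 : K) * e2
    have r2 : (k2 : K) * (1 + w) = k1 * (1 + w + w) := by
      have h := congrArg (fun x => x ^ p) r1
      simp only [mul_pow, nat_pow, hconj] at h
      have h3 : (1 - w - w) ^ p = 1 + w + w := by
        have := sub_pow_p p 1 (1 - w) w
        rw [pow_one] at this
        rw [this, hconj, hw]; ring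
      rw [h3] at h
      exact h
    have r3 : (k2 : K) = k1 := by
      have : 2 * ((k2 : K) - k1) = 0 := by linear_combination r1 + r2
      rcases mul_eq_zero.1 this with h | h
      · exact absurd h h20
      · exact sub_eq_zero.1 h
    have r4 : (k1 : K) = 0 := by
      have : w * (2 * (k1 : K)) = 0 := by
        rw [r3] at r1 r2
        linear_combination r1 - r2
      rcases mul_eq_zero.1 this with h | h
      · exact absurd h hw0
      · rcases mul_eq_zero.1 h with h | h
        · exact absurd h h20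
        · exact h
    rw [r4, zero_mul] at e1
    apply hne
    rw [e1]
    exact zero_pow (Fact.out : p.Prime).ne_zero
  · -- g odd
    set τ := T p μ g with hτ
    have ht : (τ + τ ^ p) ^ p = τ + τ ^ p := by
      rw [add_pow_char, ← pow_mul, ← pow_two]
      have : τ ^ (p ^ 2) = τ := hgQ
      rw [this]; ring
    rcases Nat.even_or_odd k2 with hke | hko
    · obtain ⟨j, hj⟩ := hke
      have hk2' : k2 = 2 * j := by omega
      have e2 := (T_odd p μ hgo hgQ j).1
      rw [← hk2', ← hk2, hTn, hk2, hk2', show g * (2 * j) = 2 * (g * j) by ring, hQw.even] at e2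
      have h := congrArg (fun x => x ^ p) e2
      simp only [mul_pow, nat_pow] at h
      rw [← hτ, ht, ← e2] at h
      have h3 : (1 - w - w) ^ p = 1 + w + w := by
        have := sub_pow_p p 1 (1 - w) w
        rw [pow_one] at this
        rw [this, hconj, hw]; ring
      rw [h3] at h
      have : 2 * (2 * w) = 0 := by linear_combination h
      rcases mul_eq_zero.1 this with h | h
      · exact h20 h
      · rcases mul_eq_zero.1 h with h | h
        · exact h20 h
        · exact hw0 h
    · obtain ⟨j, hj⟩ := hko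
      have e2 := (T_odd p μ hgo hgQ j).2
      obtain ⟨r, hr⟩ := hgo
      have hn' : n = 2 * (2 * r * j + r + j) + 1 := by rw [hk2, hj, hr]; ring
      have hTn1 : T p μ n = 1 := by
        rw [hTn]
        conv_lhs => rw [hn']
        rw [hQw.odd, hw]; ring
      rw [← hj, ← hk2, hTn1, ← hτ] at e2
      -- τ = 1 - j t is fixed by Frobenius
      have hτp : τ ^ p = τ := by
        have e3 : τ = 1 - (j : K) * (τ + τ ^ p) := by linear_combination -e2
        have e4 : (1 - (j : K) * (τ + τ ^ p)) ^ p = 1 - (j : K) * (τ + τ ^ p) := by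
          have := sub_pow_p p 1 1 ((j : K) * (τ + τ ^ p))
          rw [pow_one] at this
          rw [this, one_pow, mul_pow, nat_pow, ht]
        rw [← e3] at e4
        exact e4
      apply hne
      rw [← hTm]
      have hgo' : Odd g := ⟨r, hr⟩
      rcases Nat.even_or_odd k1 with hke | hko
      · obtain ⟨i, hi⟩ := hke
        have hk1' : k1 = 2 * i := by omega
        have e1 := (T_odd p μ hgo' hgQ i).1
        rw [← hk1', ← hk1, ← hτ] at e1
        rw [e1, mul_pow, nat_pow, ht]
      · obtain ⟨i, hi⟩ := hko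
        have e1 := (T_odd p μ hgo' hgQ i).2
        rw [← hi, ← hk1, ← hτ] at e1
        rw [e1, add_pow_char, mul_pow, nat_pow, ht, hτp]

end core

/-- For every odd prime `p` and every `c` the set `C_g(a, b; β)` is empty for `g = z^p + c` and
suitable `a, b, β`. -/
theorem empty (p : ℕ) [Fact p.Prime] (hp2 : p ≠ 2) :
    ∃ a b β : AlgebraicClosure (ZMod p), ∀ c : AlgebraicClosure (ZMod p),
      Collide (X ^ p + C c) a b β = ∅ := by
  have : CharP (AlgebraicClosure (ZMod p)) p :=
    charP_of_injective_algebraMap (algebraMap (ZMod p) (AlgebraicClosure (ZMod p))).injective p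
  have hp1 : 0 < p - 1 := by
    have := (Fact.out : p.Prime).two_le
    omega
  obtain ⟨w, hw⟩ := IsAlgClosed.exists_pow_nat_eq (-1 : AlgebraicClosure (ZMod p)) hp1
  have hw0 : w ≠ 0 := by
    rintro rfl
    rw [zero_pow (by omega)] at hw
    have : (1 : AlgebraicClosure (ZMod p)) = 0 := by linear_combination hw
    exact one_ne_zero this
  have hwp : w ^ p = -w := by
    have hpp : p = (p - 1) + 1 := by omega
    have e : w ^ p = w ^ ((p - 1) + 1) := congrArg (fun k => w ^ k) hpp
    rw [e, pow_succ, hw]; ring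
  refine ⟨0, w, 1 - w, fun c => ?_⟩
  apply Set.eq_empty_of_forall_notMem
  rintro l ⟨m, n, hm, hn, h1, h2⟩
  have hf : (fun z : AlgebraicClosure (ZMod p) => (X ^ p + C c).eval z + l) =
      fun z => z ^ p + (c + l) := by
    funext z
    simp [add_assoc]
  rw [hf] at h1 h2
  exact main p hp2 w hwp hw0 (c + l) m n hm h1 h2

/-- For every odd prime `p`, over the algebraic closure of `F_p`: there are points `a, b, β` such that
for every constant `c ≠ 0` the set `C_g(a, b; β)` of `g = z^p + c` is empty, and `g` is not additive of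
degree `p`.  Hence the assertion of Q1 fails for every odd prime `p`. -/
theorem result (p : ℕ) [Fact p.Prime] (hp2 : p ≠ 2) :
    EmptyFor (AlgebraicClosure (ZMod p)) p ∧ ¬ AlwaysInfinite (AlgebraicClosure (ZMod p)) := by
  have H : EmptyFor (AlgebraicClosure (ZMod p)) p := by
    obtain ⟨a, b, β, h⟩ := empty p hp2
    refine ⟨a, b, β, fun c hc => ⟨?_, ?_, h c⟩⟩
    · exact natDegree_X_pow_add_C
    · intro hadd
      have h0 := hadd 0 0
      have hp0 : p ≠ 0 := (Fact.out : p.Prime).ne_zero
      simp [hp0] at h0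
      exact hc h0
  refine ⟨H, ?_⟩
  intro hall
  obtain ⟨a, b, β, h⟩ := H
  obtain ⟨h1, h2, h3⟩ := h 1 one_ne_zero
  have := hall _ (by rw [h1]; exact (Fact.out : p.Prime).two_le) h2 a b β
  rw [h3] at this
  exact this Set.finite_empty

end Pool.Agent.Results.MP_e06cf1_nt.AffineFails
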